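import Mathlib
import Pool.Agent.Helper70.RT.Sheet

/-! # Row BND of `Pool/Agent/Helper70/RT/Sheet.lean` -/

set_option autoImplicit false

namespace Pool.Helper70.RT.S25

open Pool.Helper70.RT

/-- `f` is at most `C m ^ k` on the box of size `m` -/
def BO (k : ℕ) (f : ℕ × ℕ × ℕ → ℤ) : Prop :=
  ∃ C : ℤ, 0 ≤ C ∧ ∀ m : ℕ, 1 ≤ m → ∀ T ∈ Box m, |f T| ≤ C * (m : ℤ) ^ k

theorem BO.mono {j k : ℕ} {f : ℕ × ℕ × ℕ → ℤ} (h : BO j f) (hjk : j ≤ k) : BO k f := by
  obtain ⟨C, hC, H⟩ := h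
  refine ⟨C, hC, fun m hm T hT => (H m hm T hT).trans ?_⟩
  have hm1 : (1 : ℤ) ≤ (m : ℤ) := by exact_mod_cast hm
  exact mul_le_mul_of_nonneg_left (pow_le_pow_right₀ hm1 hjk) hC

theorem BO.const (k : ℕ) (c : ℤ) : BO k (fun _ => c) := by
  refine ⟨|c|, abs_nonneg c, fun m hm T _ => ?_⟩
  have hm1 : (1 : ℤ) ≤ (m : ℤ) ^ k := one_le_pow₀ (by exact_mod_cast hm)
  have := mul_le_mul_of_nonneg_left hm1 (abs_nonneg c)
  linarith

theorem BO.add {k : ℕ} {f g : ℕ × ℕ × ℕ → ℤ} (hf : BO k f) (hg : BO k g) :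
    BO k (fun T => f T + g T) := by
  obtain ⟨C, hC, H⟩ := hf
  obtain ⟨D, hD, G⟩ := hg
  refine ⟨C + D, by linarith, fun m hm T hT => ?_⟩
  have h1 := H m hm T hT
  have h2 := G m hm T hT
  have h3 := abs_add_le (f T) (g T)
  rw [add_mul]
  linarith

theorem BO.neg {k : ℕ} {f : ℕ × ℕ × ℕ → ℤ} (hf : BO k f) : BO k (fun T => -(f T)) := by
  obtain ⟨C, hC, H⟩ := hf
  refine ⟨C, hC, fun m hm T hT => ?_⟩
  rw [abs_neg]
  exact H m hm T hT

theorem BO.sub {k : ℕ} {f g : ℕ × ℕ × ℕ → ℤ} (hf : BO k f) (hg : BO k g) :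
    BO k (fun T => f T - g T) := by
  have h := hf.add hg.neg
  have e : (fun T => f T - g T) = fun T => f T + -(g T) := by
    funext T
    ring
  rw [e]
  exact h

theorem BO.mul {j k l : ℕ} {f g : ℕ × ℕ × ℕ → ℤ} (hf : BO j f) (hg : BO k g)
    (hl : j + k ≤ l) : BO l (fun T => f T * g T) := by
  apply BO.mono _ hl
  obtain ⟨C, hC, H⟩ := hf
  obtain ⟨D, hD, G⟩ := hg
  refine ⟨C * D, mul_nonneg hC hD, fun m hm T hT => ?_⟩
  have h1 := H m hm T hT
  have h2 := G m hm T hT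
  rw [abs_mul, pow_add]
  calc |f T| * |g T| ≤ (C * (m : ℤ) ^ j) * (D * (m : ℤ) ^ k) :=
        mul_le_mul h1 h2 (abs_nonneg _) (le_trans (abs_nonneg _) h1)
    _ = C * D * ((m : ℤ) ^ j * (m : ℤ) ^ k) := by ring

theorem BO.cmul {k : ℕ} {f : ℕ × ℕ × ℕ → ℤ} (c : ℤ) (hf : BO k f) : BO k (fun T => c * f T) :=
  (BO.const 0 c).mul hf (by omega)

theorem BO.sum {ι : Type} (F : Finset ι) (k : ℕ) (f : ι → ℕ × ℕ × ℕ → ℤ)
    (h : ∀ a ∈ F, BO k (f a)) : BO k (fun T => ∑ a ∈ F, f a T) := by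
  classical
  induction F using Finset.induction_on with
  | empty =>
    simp only [Finset.sum_empty]
    exact BO.const k 0
  | insert a F ha ih =>
    simp only [Finset.sum_insert ha]
    exact (h a (Finset.mem_insert_self _ _)).add
      (ih (fun b hb => h b (Finset.mem_insert_of_mem hb)))

theorem BO.pow {f : ℕ × ℕ × ℕ → ℤ} (h : BO 1 f) (n : ℕ) : BO n (fun T => f T ^ n) := by
  induction n with
  | zero =>
    simp only [pow_zero]
    exact BO.const 0 1
  | succ n ih =>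
    simp only [pow_succ]
    exact ih.mul h le_rfl

/-- binary forms -/
theorem BO.form {U V : ℕ × ℕ × ℕ → ℤ} (hU : BO 1 U) (hV : BO 1 V) (d : ℕ) (c : ℕ → ℤ) :
    BO d (fun T => ∑ i ∈ Finset.range (d + 1), c i * (U T ^ i * V T ^ (d - i))) := by
  refine BO.sum _ _ _ (fun i hi => BO.cmul (c i) ((hU.pow i).mul (hV.pow (d - i)) ?_))
  have := Finset.mem_range.1 hi
  omega

theorem BO.congr {k : ℕ} {f g : ℕ × ℕ × ℕ → ℤ} (h : BO k f) (e : ∀ T, g T = f T) : BO k g := by
  have : g = f := funext e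
  rw [this]
  exact h

/-- affine functions of the indices -/
theorem bo_aff (c M : ℤ) {k : ℕ} {f : ℕ × ℕ × ℕ → ℤ} (h : BO k f) :
    BO k (fun T => c + M * f T) :=
  (BO.const k c).add (BO.cmul M h)

theorem bo_U : BO 1 (fun T => (ww T).1) := by
  have h : BO 1 (fun T => (T.1 : ℤ)) := by
    refine ⟨1, by norm_num, fun m hm T hT => ?_⟩
    unfold Box at hT
    rw [Finset.mem_product, Finset.mem_product] at hT
    have h1 := Finset.mem_range.1 hT.1
    rw [abs_of_nonneg (Int.natCast_nonneg _), one_mul, pow_one]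
    exact_mod_cast h1.le
  exact (bo_aff 4 MM h).congr (fun T => rfl)

theorem bo_V : BO 1 (fun T => (ww T).2.1) := by
  have h : BO 1 (fun T => (T.2.1 : ℤ)) := by
    refine ⟨1, by norm_num, fun m hm T hT => ?_⟩
    unfold Box at hT
    rw [Finset.mem_product, Finset.mem_product] at hT
    have h1 := Finset.mem_range.1 hT.2.1
    rw [abs_of_nonneg (Int.natCast_nonneg _), one_mul, pow_one]
    exact_mod_cast h1.le
  exact (bo_aff (-1) MM h).congr (fun T => rfl)

theorem bo_z : BO 2 (fun T => (ww T).2.2) := by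
  have h : BO 2 (fun T => (T.2.2 : ℤ)) := by
    refine ⟨1, by norm_num, fun m hm T hT => ?_⟩
    unfold Box at hT
    rw [Finset.mem_product, Finset.mem_product] at hT
    have h1 := Finset.mem_range.1 hT.2.2
    rw [abs_of_nonneg (Int.natCast_nonneg _), one_mul]
    exact_mod_cast h1.le
  exact (bo_aff 5 MM h).congr (fun T => rfl)

section
variable (U V t : ℕ × ℕ × ℕ → ℤ) (hU : BO 1 U) (hV : BO 1 V) (ht : BO 4 t)
include hU hV

theorem bo_e2 : BO 2 (fun T => e2 (U T) (V T)) := by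
  refine (BO.form hU hV 2 (fun i => ([-5340, 12, -366] : List ℤ).getD i 0)).congr
    (fun T => ?_)
  unfold e2
  simp [Finset.sum_range_succ]
  ring

theorem bo_e3 : BO 3 (fun T => e3 (U T) (V T)) := by
  refine (BO.form hU hV 3 (fun i => ([127392, 17464, -136, 300] : List ℤ).getD i 0)).congr
    (fun T => ?_)
  unfold e3
  simp [Finset.sum_range_succ]
  ring

theorem bo_g0 : BO 4 (fun T => g0 (U T) (V T)) := by
  refine (BO.form hU hV 4 (fun i => ([-788694, -203652, -91374, 40260, -3600] :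
    List ℤ).getD i 0)).congr (fun T => ?_)
  unfold g0
  simp [Finset.sum_range_succ]
  ring

theorem bo_h3 : BO 5 (fun T => h3 (U T) (V T)) := by
  refine (BO.form hU hV 5 (fun i => ([67619328, -170956928, 79008256, 34030688, -3510784,
    -101760] : List ℤ).getD i 0)).congr (fun T => ?_)
  unfold h3
  simp [Finset.sum_range_succ]
  ring

theorem bo_h2 : BO 6 (fun T => h2 (U T) (V T)) := by
  refine (BO.form hU hV 6 (fun i => ([4694354176, -11334617088, 5598163008, 1707932096,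
    129233472, -50624256, 4535296] : List ℤ).getD i 0)).congr (fun T => ?_)
  unfold h2
  simp [Finset.sum_range_succ]
  ring

theorem bo_h1 : BO 7 (fun T => h1 (U T) (V T)) := by
  refine (BO.form hU hV 7 (fun i => ([103693595136, -237460178048, 106997185152, 46173836384,
    314499616, -893176416, -26871424, 5784960] : List ℤ).getD i 0)).congr (fun T => ?_)
  unfold h1
  simp [Finset.sum_range_succ]
  ring

theorem bo_h0 : BO 8 (fun T => h0 (U T) (V T)) := by
  refine (BO.form hU hV 8 (fun i => ([740566619136, -1601906060544, 583358372032,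
    442707061248, -7559713232, -23024181984, 2729107264, -105198720, 2822400] :
    List ℤ).getD i 0)).congr (fun T => ?_)
  unfold h0
  simp [Finset.sum_range_succ]
  ring

include ht

theorem bo_q4 : BO 4 (fun T => q4 (t T)) := (BO.cmul 4 ht).congr (fun T => rfl)

theorem bo_q2 : BO 6 (fun T => q2 (U T) (V T) (t T)) := by
  refine ((BO.cmul 2 ((bo_e2 U V hU hV).mul ht (by omega))).add (bo_h2 U V hU hV)).congr
    (fun T => ?_)
  unfold q2
  ring

theorem bo_q1 : BO 7 (fun T => q1 (U T) (V T) (t T)) := by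
  refine ((BO.cmul (-2) ((bo_e3 U V hU hV).mul ht (by omega))).add (bo_h1 U V hU hV)).congr
    (fun T => ?_)
  unfold q1
  ring

theorem bo_q0 : BO 8 (fun T => q0 (U T) (V T) (t T)) := by
  refine (((ht.mul ht (by omega)).add (BO.cmul 2 ((bo_g0 U V hU hV).mul ht (by omega)))).add
    (bo_h0 U V hU hV)).congr (fun T => ?_)
  unfold q0
  ring

theorem bo_I : BO 12 (fun T => fI (U T) (V T) (t T)) := by
  refine (((BO.cmul 12 ((bo_q4 U V t hU hV ht).mul (bo_q0 U V t hU hV ht) (by omega))).sub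
    (BO.cmul 3 ((bo_h3 U V hU hV).mul (bo_q1 U V t hU hV ht) (by omega)))).add
    ((bo_q2 U V t hU hV ht).mul (bo_q2 U V t hU hV ht) (by omega))).congr (fun T => ?_)
  unfold fI q3
  ring

theorem bo_J : BO 18 (fun T => fJ (U T) (V T) (t T)) := by
  have a4 := bo_q4 U V t hU hV ht
  have a3 := bo_h3 U V hU hV
  have a2 := bo_q2 U V t hU hV ht
  have a1 := bo_q1 U V t hU hV ht
  have a0 := bo_q0 U V t hU hV ht
  refine (((((BO.cmul 72 ((a4.mul a2 (l := 10) (by omega)).mul a0 (by omega))).add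
    (BO.cmul 9 ((a3.mul a2 (l := 11) (by omega)).mul a1 (by omega)))).sub
    (BO.cmul 27 (a4.mul (a1.mul a1 (l := 14) (by omega)) (by omega)))).sub
    (BO.cmul 27 (a0.mul (a3.mul a3 (l := 10) (by omega)) (by omega)))).sub
    (BO.cmul 2 (a2.mul (a2.mul a2 (l := 12) (by omega)) (by omega)))).congr (fun T => ?_)
  unfold fJ q3
  ring

end

theorem bo_div {k : ℕ} {f g : ℕ × ℕ × ℕ → ℤ} (c : ℤ) (hc : 1 ≤ c) (hf : BO k f)
    (h : ∀ T, c * g T = f T) : BO k g := by
  obtain ⟨C, hC, H⟩ := hf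
  refine ⟨C, hC, fun m hm T hT => ?_⟩
  have h1 := H m hm T hT
  rw [← h T, abs_mul, abs_of_nonneg (by linarith : (0 : ℤ) ≤ c)] at h1
  have h2 : 1 * |g T| ≤ c * |g T| := mul_le_mul_of_nonneg_right hc (abs_nonneg _)
  linarith

theorem cong_gen (M c : ℤ) (n : ℤ) : M ∣ c + M * n - c := ⟨n, by ring⟩

theorem cong_ww (T : ℕ × ℕ × ℕ) : Cong (ww T) := by
  refine ⟨cong_gen MM 4 _, ?_, cong_gen MM 5 _⟩
  have h := cong_gen MM (-1) (T.2.1 : ℤ)
  rwa [sub_neg_eq_add] at h

end Pool.Helper70.RT.S25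

namespace Pool.Helper70.RT

open Pool.Helper70.RT.S25

/-- Row BND. -/
theorem st_BND (hR : ST_REL) : ST_BND := by
  have ht : BO 4 (fun T => (ww T).2.2 ^ 2) :=
    (bo_z.mul bo_z (by omega)).congr (fun T => sq _)
  obtain ⟨C, hC, H⟩ := bo_div (g := fun T => cA (ww T)) 48 (by norm_num)
    (bo_I _ _ _ bo_U bo_V ht).neg (fun T => (hR (ww T) (cong_ww T)).1)
  obtain ⟨D, hD, G⟩ := bo_div (g := fun T => cB (ww T)) 1728 (by norm_num)
    (bo_J _ _ _ bo_U bo_V ht).neg (fun T => (hR (ww T) (cong_ww T)).2.1)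
  refine ⟨C + D + 1, by linarith, fun m hm T hT => ?_⟩
  refine ⟨(H m hm T hT).trans (mul_le_mul_of_nonneg_right (by linarith) (by positivity)),
    (G m hm T hT).trans (mul_le_mul_of_nonneg_right (by linarith) (by positivity))⟩

end Pool.Helper70.RT
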